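import Pool.Agent.Helper20.EX3.Statements

/-!
# MP_2857a5_co : module IS, the initial structure
-/

set_option autoImplicit false

open Finset
open scoped Classical

namespace OT

theorem is_markov {V : Type} (S : Finset V) (f : V → ℝ) (hf : ∀ v ∈ S, 0 ≤ f v) (t : ℝ) :
    t * ((S.filter fun v => ¬ f v ≤ t).card : ℝ) ≤ ∑ v ∈ S, f v := by
  calc t * ((S.filter fun v => ¬ f v ≤ t).card : ℝ) =
        ∑ _v ∈ S.filter (fun v => ¬ f v ≤ t), t := by
        rw [sum_const, nsmul_eq_mul, mul_comm]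
    _ ≤ ∑ v ∈ S.filter (fun v => ¬ f v ≤ t), f v := by
        refine sum_le_sum fun v hv => ?_
        rw [mem_filter] at hv
        exact (not_le.1 hv.2).le
    _ ≤ ∑ v ∈ S, f v := sum_le_sum_of_subset_of_nonneg (filter_subset _ _)
        fun v hv _ => hf v hv

theorem is_adj_not {V : Type} (D : V → V → Prop) (b : Bool) (u v : V) :
    Adj D (!b) u v ↔ Adj D b v u := by
  cases b <;> simp [Adj]

theorem is_mem_adjN {V : Type} [Fintype V] (D : V → V → Prop) (b : Bool) (u v : V) :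
    v ∈ adjN D b u ↔ Adj D b u v := by
  simp [adjN]

/-- double counting of pairs -/
theorem is_double {V : Type} (P : V → V → Prop) (A B : Finset V) :
    ∑ a ∈ A, ((B.filter fun v => P a v).card : ℝ) =
      ∑ v ∈ B, ((A.filter fun a => P a v).card : ℝ) := by
  have h : ∑ a ∈ A, (B.filter fun v => P a v).card = ∑ v ∈ B, (A.filter fun a => P a v).card := by
    simp only [card_filter]
    exact sum_comm
  exact_mod_cast h

/-- One side of the structure. -/
theorem is_side {V : Type} [Fintype V] (D : V → V → Prop) (b : Bool) (X Y : Finset V)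
    (ε s q : ℝ) (hn : 0 < Fintype.card V) (hq : 0 < q) (hs : 0 < s) (hsq : 3 * s = q ^ 2)
    (hε : ε = s ^ 2) (hs1 : s ≤ 1 / 10) (hD : SemiDeg D 0)
    (hX : (1 / 2 - ε) * (Fintype.card V : ℝ) ≤ (X.card : ℝ))
    (hY : (1 / 2 - ε) * (Fintype.card V : ℝ) ≤ (Y.card : ℝ))
    (ha : ∑ x ∈ X, ((Y.filter fun y => Adj D b x y).card : ℝ) ≤ ε * (Fintype.card V : ℝ) ^ 2) :
    ∃ X1 Q : Finset V, X1 ⊆ X ∧ Q ⊆ Yᶜ ∧ ((X \ X1).card : ℝ) ≤ s * (Fintype.card V : ℝ) ∧
      ((Yᶜ \ Q).card : ℝ) ≤ q * (Fintype.card V : ℝ) ∧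
      (Y.card : ℝ) ≤ (1 / 2 + s) * (Fintype.card V : ℝ) ∧
      (∀ x ∈ X1, ((Yᶜ \ adjN D b x).card : ℝ) ≤ 2 * s * (Fintype.card V : ℝ)) ∧
      (∀ v ∈ Q, ((X \ adjN D (!b) v).card : ℝ) ≤ q * (Fintype.card V : ℝ)) := by
  set n : ℝ := (Fintype.card V : ℝ) with hndef
  have hn0 : 0 < n := by rw [hndef]; exact_mod_cast hn
  have hε1 : ε ≤ s := by rw [hε]; nlinarith
  have hε0 : 0 ≤ ε := by rw [hε]; positivity
  set X1 := X.filter fun x => ((Y.filter fun y => Adj D b x y).card : ℝ) ≤ s * n with hX1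
  set Q := (Yᶜ).filter fun v => ((X \ adjN D (!b) v).card : ℝ) ≤ q * n with hQ
  have e1 : X \ X1 = X.filter fun x => ¬ ((Y.filter fun y => Adj D b x y).card : ℝ) ≤ s * n := by
    rw [hX1]
    ext v
    simp only [mem_sdiff, mem_filter]
    tauto
  have h1 : ((X \ X1).card : ℝ) ≤ s * n := by
    have := is_markov X (fun x => ((Y.filter fun y => Adj D b x y).card : ℝ))
      (fun _ _ => Nat.cast_nonneg _) (s * n)
    rw [← e1] at this
    have h2 : s * n * ((X \ X1).card : ℝ) ≤ s * n * (s * n) := by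
      refine this.trans (ha.trans (le_of_eq ?_))
      rw [hε]; ring
    exact le_of_mul_le_mul_left h2 (by positivity)
  have hcompl : ((Yᶜ).card : ℝ) = n - Y.card := by
    rw [card_compl, Nat.cast_sub (card_le_univ Y)]
  -- neighbourhoods of the vertices in X1
  have hsplit : ∀ x, ((adjN D b x).card : ℝ) ≤
      ((Y.filter fun y => Adj D b x y).card : ℝ) + ((Yᶜ).card - ((Yᶜ \ adjN D b x).card : ℝ)) := by
    intro x
    have e2 : (adjN D b x).card ≤ (Y.filter fun y => Adj D b x y).card +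
        (Yᶜ ∩ adjN D b x).card := by
      have hsub : adjN D b x ⊆ (Y.filter fun y => Adj D b x y) ∪ (Yᶜ ∩ adjN D b x) := by
        intro v hv
        rw [mem_union, mem_filter, mem_inter, mem_compl]
        have := (is_mem_adjN D b x v).1 hv
        tauto
      exact (card_le_card hsub).trans (card_union_le _ _)
    have e3 : (Yᶜ ∩ adjN D b x).card + (Yᶜ \ adjN D b x).card = (Yᶜ).card :=
      card_inter_add_card_sdiff _ _
    have e4 : ((Yᶜ ∩ adjN D b x).card : ℝ) + ((Yᶜ \ adjN D b x).card : ℝ) = (Yᶜ).card := by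
      exact_mod_cast e3
    have e5 : ((adjN D b x).card : ℝ) ≤ ((Y.filter fun y => Adj D b x y).card : ℝ) +
        ((Yᶜ ∩ adjN D b x).card : ℝ) := by exact_mod_cast e2
    linarith
  have hdeg : ∀ x, n / 2 ≤ ((adjN D b x).card : ℝ) := by
    intro x
    have := hD.deg b x
    rw [add_zero] at this
    exact this
  have hmem1 : ∀ x ∈ X1, ((Y.filter fun y => Adj D b x y).card : ℝ) ≤ s * n := by
    intro x hx
    rw [hX1, mem_filter] at hx
    exact hx.2
  have hX1ne : X1.Nonempty := by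
    rw [nonempty_iff_ne_empty]
    intro h0
    rw [h0, sdiff_empty] at h1
    have : (1 / 2 - ε) * n ≤ s * n := hX.trans h1
    have h3 : (1 / 2 - ε) ≤ s := le_of_mul_le_mul_right this hn0
    linarith
  have hYle : (Y.card : ℝ) ≤ (1 / 2 + s) * n := by
    obtain ⟨x, hx⟩ := hX1ne
    have h2 := hsplit x
    have h3 := hdeg x
    have h4 := hmem1 x hx
    have h5 : (0 : ℝ) ≤ ((Yᶜ \ adjN D b x).card : ℝ) := Nat.cast_nonneg _
    rw [hcompl] at h2
    linarith
  have hmiss : ∀ x ∈ X1, ((Yᶜ \ adjN D b x).card : ℝ) ≤ 2 * s * n := by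
    intro x hx
    have h2 := hsplit x
    have h3 := hdeg x
    have h4 := hmem1 x hx
    rw [hcompl] at h2
    have h6 : ε * n ≤ s * n := mul_le_mul_of_nonneg_right hε1 hn0.le
    linarith
  have hsum : ∑ x ∈ X, ((Yᶜ \ adjN D b x).card : ℝ) ≤ 3 * s * n ^ 2 := by
    rw [← sum_sdiff (filter_subset _ _ : X1 ⊆ X)]
    have h2 : ∑ x ∈ X \ X1, ((Yᶜ \ adjN D b x).card : ℝ) ≤ s * n * n := by
      calc ∑ x ∈ X \ X1, ((Yᶜ \ adjN D b x).card : ℝ) ≤ ∑ _x ∈ X \ X1, n := by
            refine sum_le_sum fun x _ => ?_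
            rw [hndef]
            exact_mod_cast card_le_univ _
        _ = ((X \ X1).card : ℝ) * n := by rw [sum_const, nsmul_eq_mul]
        _ ≤ s * n * n := mul_le_mul_of_nonneg_right h1 hn0.le
    have h3 : ∑ x ∈ X1, ((Yᶜ \ adjN D b x).card : ℝ) ≤ n * (2 * s * n) := by
      calc ∑ x ∈ X1, ((Yᶜ \ adjN D b x).card : ℝ) ≤ ∑ _x ∈ X1, 2 * s * n := sum_le_sum hmiss
        _ = (X1.card : ℝ) * (2 * s * n) := by rw [sum_const, nsmul_eq_mul]
        _ ≤ n * (2 * s * n) := by
            refine mul_le_mul_of_nonneg_right ?_ (by positivity)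
            rw [hndef]
            exact_mod_cast card_le_univ _
    linarith
  have hdc : ∑ v ∈ Yᶜ, ((X \ adjN D (!b) v).card : ℝ) ≤ 3 * s * n ^ 2 := by
    have e2 : ∀ v, X \ adjN D (!b) v = X.filter fun x => ¬ Adj D b x v := by
      intro v
      ext x
      rw [mem_sdiff, mem_filter, is_mem_adjN, is_adj_not]
    have e3 : ∀ x, Yᶜ \ adjN D b x = (Yᶜ).filter fun v => ¬ Adj D b x v := by
      intro x
      ext v
      rw [mem_sdiff, mem_filter, is_mem_adjN]
    simp only [e2]
    simp only [e3] at hsum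
    refine le_trans (le_of_eq ?_) hsum
    convert (is_double (fun x v => ¬ Adj D b x v) X Yᶜ).symm
  refine ⟨X1, Q, filter_subset _ _, filter_subset _ _, h1, ?_, hYle, hmiss, ?_⟩
  · have e4 : Yᶜ \ Q = (Yᶜ).filter fun v => ¬ ((X \ adjN D (!b) v).card : ℝ) ≤ q * n := by
      rw [hQ]
      ext v
      simp only [mem_sdiff, mem_filter]
      tauto
    have := is_markov Yᶜ (fun v => ((X \ adjN D (!b) v).card : ℝ))
      (fun _ _ => Nat.cast_nonneg _) (q * n)
    rw [← e4] at this
    have h2 : q * n * ((Yᶜ \ Q).card : ℝ) ≤ q * n * (q * n) := by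
      refine this.trans (hdc.trans (le_of_eq ?_))
      rw [hsq]; ring
    exact le_of_mul_le_mul_left h2 (by positivity)
  · intro v hv
    rw [hQ, mem_filter] at hv
    exact hv.2

theorem is_card {V : Type} [Fintype V] (P A B : Finset V) (x y : ℝ)
    (hP : x ≤ (P.card : ℝ)) (hc : (((A ∪ B)ᶜ).card : ℝ) ≤ y) :
    x - y ≤ ((P ∩ A).card : ℝ) + ((P ∩ B).card : ℝ) := by
  have h1 : P.card ≤ (P ∩ A).card + (P ∩ B).card + ((A ∪ B)ᶜ).card := by
    have hsub : P ⊆ ((P ∩ A) ∪ (P ∩ B)) ∪ (A ∪ B)ᶜ := by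
      intro v hv
      simp only [mem_union, mem_inter, mem_compl, hv, true_and]
      tauto
    have h2 := card_le_card hsub
    have h3 := card_union_le ((P ∩ A) ∪ (P ∩ B)) (A ∪ B)ᶜ
    have h4 := card_union_le (P ∩ A) (P ∩ B)
    omega
  have h5 : (P.card : ℝ) ≤ (P ∩ A).card + (P ∩ B).card + ((A ∪ B)ᶜ).card := by exact_mod_cast h1
  linarith

theorem is_compl {V : Type} [Fintype V] (X A B : Finset V) (x y : ℝ)
    (h1 : ((X \ A).card : ℝ) ≤ x) (h2 : ((Xᶜ \ B).card : ℝ) ≤ y) :
    (((A ∪ B)ᶜ).card : ℝ) ≤ x + y := by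
  have hsub : (A ∪ B)ᶜ ⊆ (X \ A) ∪ (Xᶜ \ B) := by
    intro v hv
    simp only [mem_union, mem_sdiff, mem_compl] at hv ⊢
    tauto
  have h3 : (((A ∪ B)ᶜ).card : ℝ) ≤ ((X \ A).card : ℝ) + ((Xᶜ \ B).card : ℝ) := by
    exact_mod_cast (card_le_card hsub).trans (card_union_le _ _)
  linarith

theorem x3_is : StIS := by
  intro δ hδ
  set q : ℝ := min (δ / 8) (1 / 8) with hqdef
  have hq : 0 < q := by rw [hqdef]; exact lt_min (by positivity) (by norm_num)
  have hqδ : 8 * q ≤ δ := by
    have := min_le_left (δ / 8) (1 / 8 : ℝ)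
    rw [← hqdef] at this
    linarith
  have hq1 : q ≤ 1 / 8 := min_le_right _ _
  set s : ℝ := q ^ 2 / 3 with hsdef
  have hs : 0 < s := by positivity
  have hsq : 3 * s = q ^ 2 := by rw [hsdef]; ring
  have hsle : s ≤ q := by nlinarith
  have hs1 : s ≤ 1 / 10 := by nlinarith
  refine ⟨s ^ 2, by positivity, by nlinarith, ?_⟩
  intro V _ D hn hD hExt
  obtain ⟨X, Y, hX, hY, harc⟩ := hExt
  set n : ℝ := (Fintype.card V : ℝ) with hndef
  have hn0 : 0 < n := by rw [hndef]; exact_mod_cast hn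
  have ha1 : ∑ x ∈ X, ((Y.filter fun y => Adj D true x y).card : ℝ) ≤ s ^ 2 * n ^ 2 := by
    have e1 : arcs D X Y = ∑ x ∈ X, (Y.filter fun y => Adj D true x y).card := by
      rw [arcs, card_filter, sum_product]
      refine sum_congr rfl fun x _ => ?_
      rw [card_filter]
      simp [Adj]
    have e2 : (arcs D X Y : ℝ) = ∑ x ∈ X, ((Y.filter fun y => Adj D true x y).card : ℝ) := by
      rw [e1]; push_cast; rfl
    rw [← e2]
    exact harc
  have ha2 : ∑ y ∈ Y, ((X.filter fun x => Adj D false y x).card : ℝ) ≤ s ^ 2 * n ^ 2 := by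
    have e3 := is_double (fun x y => Adj D true x y) X Y
    have e4 : ∀ y x, Adj D false y x ↔ Adj D true x y := fun y x => is_adj_not D true y x
    simp only [e4]
    rw [← e3]
    exact ha1
  obtain ⟨X1, Q, hX1, hQ, hX1c, hQc, hYle, hX1m, hQm⟩ :=
    is_side D true X Y (s ^ 2) s q hn hq hs hsq rfl hs1 hD hX hY ha1
  obtain ⟨Y1, R, hY1, hR, hY1c, hRc, hXle, hY1m, hRm⟩ :=
    is_side D false Y X (s ^ 2) s q hn hq hs hsq rfl hs1 hD hY hX ha2
  rw [← hndef] at *
  -- in-types: Q (true), Y1 (false); out-types: X1 (true), R (false)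
  let P : Bool → Finset V := fun b => if b then Q else Y1
  let O : Bool → Finset V := fun b => if b then X1 else R
  have hPt : P true = Q := rfl
  have hPf : P false = Y1 := rfl
  have hOt : O true = X1 := rfl
  have hOf : O false = R := rfl
  have hP : ∀ v, ¬ (v ∈ P true ∧ v ∈ P false) := by
    rintro v ⟨h1, h2⟩
    exact (mem_compl.1 (hQ h1)) (hY1 h2)
  have hO : ∀ v, ¬ (v ∈ O true ∧ v ∈ O false) := by
    rintro v ⟨h1, h2⟩
    exact (mem_compl.1 (hR h2)) (hX1 h1)
  have hsn : s * n ≤ q * n := mul_le_mul_of_nonneg_right hsle hn0.le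
  have hqn : 8 * (q * n) ≤ δ * n := by
    have := mul_le_mul_of_nonneg_right hqδ hn0.le
    linarith
  have hqn0 : 0 ≤ q * n := by positivity
  have hs2 : s ^ 2 * n ≤ s * n := by
    refine mul_le_mul_of_nonneg_right ?_ hn0.le
    nlinarith
  refine ⟨fun k => P k.1 ∩ O k.2, ?_, ?_, ?_, ?_, ?_⟩
  · rintro ⟨k1, k2⟩ ⟨l1, l2⟩ hkl
    rw [disjoint_left]
    intro v hv hv'
    simp only [mem_inter] at hv hv'
    by_cases h1 : k1 = l1
    · have h2 : k2 ≠ l2 := fun h => hkl (by rw [h1, h])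
      cases k2 <;> cases l2
      · exact h2 rfl
      · exact hO v ⟨hv'.2, hv.2⟩
      · exact hO v ⟨hv.2, hv'.2⟩
      · exact h2 rfl
    · cases k1 <;> cases l1
      · exact h1 rfl
      · exact hP v ⟨hv'.1, hv.1⟩
      · exact hP v ⟨hv.1, hv'.1⟩
      · exact h1 rfl
  · rintro ⟨k1, k2⟩ ⟨l1, l2⟩ hkl w hw
    simp only at hkl hw ⊢
    subst hkl
    rw [mem_inter] at hw
    cases k2
    · have h1 := hRm w hw.2
      have h2 : (P false ∩ O l2) \ adjN D true w ⊆ Y \ adjN D (!false) w := by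
        intro v hv
        rw [mem_sdiff, mem_inter] at hv
        rw [mem_sdiff]
        exact ⟨hY1 hv.1.1, hv.2⟩
      have h3 : (((P false ∩ O l2) \ adjN D true w).card : ℝ) ≤
          ((Y \ adjN D (!false) w).card : ℝ) := by exact_mod_cast card_le_card h2
      linarith
    · have h1 := hX1m w hw.2
      have h2 : (P true ∩ O l2) \ adjN D true w ⊆ Yᶜ \ adjN D true w := by
        intro v hv
        rw [mem_sdiff, mem_inter] at hv
        rw [mem_sdiff]
        exact ⟨hQ hv.1.1, hv.2⟩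
      have h3 : (((P true ∩ O l2) \ adjN D true w).card : ℝ) ≤
          ((Yᶜ \ adjN D true w).card : ℝ) := by exact_mod_cast card_le_card h2
      linarith
  · rintro ⟨k1, k2⟩ ⟨l1, l2⟩ hkl w hw
    simp only at hkl hw ⊢
    subst hkl
    rw [mem_inter] at hw
    cases k2
    · have h1 := hY1m w hw.1
      have h2 : (P k1 ∩ O false) \ adjN D false w ⊆ Xᶜ \ adjN D false w := by
        intro v hv
        rw [mem_sdiff, mem_inter] at hv
        rw [mem_sdiff]
        exact ⟨hR hv.1.2, hv.2⟩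
      have h3 : (((P k1 ∩ O false) \ adjN D false w).card : ℝ) ≤
          ((Xᶜ \ adjN D false w).card : ℝ) := by exact_mod_cast card_le_card h2
      linarith
    · have h1 := hQm w hw.1
      have h2 : (P k1 ∩ O true) \ adjN D false w ⊆ X \ adjN D (!true) w := by
        intro v hv
        rw [mem_sdiff, mem_inter] at hv
        rw [mem_sdiff]
        exact ⟨hX1 hv.1.2, hv.2⟩
      have h3 : (((P k1 ∩ O true) \ adjN D false w).card : ℝ) ≤
          ((X \ adjN D (!true) w).card : ℝ) := by exact_mod_cast card_le_card h2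
      linarith
  · intro b
    have hcO := is_compl X (O true) (O false) (s * n) (q * n) hX1c hRc
    have hPc : (1 / 2 - 2 * q) * n ≤ ((P b).card : ℝ) := by
      cases b
      · have h1 : (Y.card : ℝ) ≤ ((Y \ Y1).card : ℝ) + Y1.card := by
          have := card_sdiff_add_card_eq_card hY1
          exact_mod_cast this.ge
        rw [hPf]
        linarith
      · have h1 : ((Yᶜ).card : ℝ) ≤ ((Yᶜ \ Q).card : ℝ) + Q.card := by
          have := card_sdiff_add_card_eq_card hQ
          exact_mod_cast this.ge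
        have h2 : ((Yᶜ).card : ℝ) = n - Y.card := by
          rw [card_compl, Nat.cast_sub (card_le_univ Y)]
        rw [hPt]
        linarith
    have := is_card (P b) (O true) (O false) _ _ hPc hcO
    simp only
    linarith
  · intro b
    have hcP : (((P true ∪ P false)ᶜ).card : ℝ) ≤ s * n + q * n := by
      rw [union_comm]
      exact is_compl Y (P false) (P true) (s * n) (q * n) hY1c hQc
    have hOc : (1 / 2 - 2 * q) * n ≤ ((O b).card : ℝ) := by
      cases b
      · have h1 : ((Xᶜ).card : ℝ) ≤ ((Xᶜ \ R).card : ℝ) + R.card := by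
          have := card_sdiff_add_card_eq_card hR
          exact_mod_cast this.ge
        have h2 : ((Xᶜ).card : ℝ) = n - X.card := by
          rw [card_compl, Nat.cast_sub (card_le_univ X)]
        rw [hOf]
        linarith
      · have h1 : (X.card : ℝ) ≤ ((X \ X1).card : ℝ) + X1.card := by
          have := card_sdiff_add_card_eq_card hX1
          exact_mod_cast this.ge
        rw [hOt]
        linarith
    have := is_card (O b) (P true) (P false) _ _ hOc hcP
    simp only
    rw [inter_comm (P true), inter_comm (P false)]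
    linarith

end OT
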