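import Pool.Agent.Helper20.EX3.Statements
import Pool.Agent.Helper62.EX.TB

/-!
# MP_2857a5_co : module WIN, long bare directed paths
-/

set_option autoImplicit false

open Finset
open scoped Classical

namespace OT

noncomputable section

variable {n : ℕ}

/-- The in-degree. -/
def win_in (T : PTree n) (v : Fin n) : ℕ :=
  ((T.ch v).filter fun c => T.sg c = false).card + if (v : ℕ) ≠ 0 ∧ T.sg v = true then 1 else 0

/-- The out-degree. -/
def win_out (T : PTree n) (v : Fin n) : ℕ :=
  ((T.ch v).filter fun c => T.sg c = true).card + if (v : ℕ) ≠ 0 ∧ T.sg v = false then 1 else 0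

/-- A good vertex. -/
def WGood (T : PTree n) (v : Fin n) : Prop := (v : ℕ) ≠ 0 ∧ win_in T v = 1 ∧ win_out T v = 1

theorem win_good_ch {T : PTree n} {v : Fin n} (h : WGood T v) :
    ∃ c, (∀ c', c' ∈ T.ch v ↔ c' = c) ∧ T.sg c = T.sg v := by
  obtain ⟨h0, h1, h2⟩ := h
  unfold win_in at h1
  unfold win_out at h2
  cases hs : T.sg v with
  | true =>
    rw [hs] at h1 h2
    simp only [ne_eq, h0, not_false_eq_true, and_self, if_true, true_and, reduceCtorEq,
      if_false, add_zero] at h1 h2
    have h3 : ((T.ch v).filter fun c => T.sg c = false) = ∅ := by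
      rw [← card_eq_zero]; omega
    obtain ⟨c, hc⟩ := card_eq_one.1 h2
    have hcm : c ∈ (T.ch v).filter fun c => T.sg c = true := by rw [hc]; exact mem_singleton_self c
    refine ⟨c, fun c' => ⟨fun h => ?_, fun h => ?_⟩, (mem_filter.1 hcm).2⟩
    · cases hc' : T.sg c' with
      | true =>
        have : c' ∈ (T.ch v).filter fun c => T.sg c = true := mem_filter.2 ⟨h, hc'⟩
        rw [hc] at this
        exact mem_singleton.1 this
      | false =>
        have : c' ∈ (T.ch v).filter fun c => T.sg c = false := mem_filter.2 ⟨h, hc'⟩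
        rw [h3] at this
        exact absurd this (notMem_empty _)
    · rw [h]; exact (mem_filter.1 hcm).1
  | false =>
    rw [hs] at h1 h2
    simp only [ne_eq, h0, not_false_eq_true, and_self, if_true, true_and, reduceCtorEq,
      if_false, add_zero] at h1 h2
    have h3 : ((T.ch v).filter fun c => T.sg c = true) = ∅ := by
      rw [← card_eq_zero]; omega
    obtain ⟨c, hc⟩ := card_eq_one.1 h1
    have hcm : c ∈ (T.ch v).filter fun c => T.sg c = false := by rw [hc]; exact mem_singleton_self c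
    refine ⟨c, fun c' => ⟨fun h => ?_, fun h => ?_⟩, (mem_filter.1 hcm).2⟩
    · cases hc' : T.sg c' with
      | false =>
        have : c' ∈ (T.ch v).filter fun c => T.sg c = false := mem_filter.2 ⟨h, hc'⟩
        rw [hc] at this
        exact mem_singleton.1 this
      | true =>
        have : c' ∈ (T.ch v).filter fun c => T.sg c = true := mem_filter.2 ⟨h, hc'⟩
        rw [h3] at this
        exact absurd this (notMem_empty _)
    · rw [h]; exact (mem_filter.1 hcm).1

/-- The child of a good vertex (junk otherwise). -/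
def win_c (T : PTree n) (v : Fin n) : Fin n := if h : WGood T v then (win_good_ch h).choose else v

theorem win_c_spec {T : PTree n} {v : Fin n} (h : WGood T v) :
    (∀ c' : Fin n, ((c' : ℕ) ≠ 0 ∧ T.par c' = v) ↔ c' = win_c T v) ∧
      T.sg (win_c T v) = T.sg v := by
  have := (win_good_ch h).choose_spec
  unfold win_c
  rw [dif_pos h]
  refine ⟨fun c' => ?_, this.2⟩
  rw [← this.1 c', tb_mem_ch]

theorem win_arc_in {T : PTree n} {v : Fin n} (h : WGood T v) (y : Fin n) :
    T.Arc y v ↔ y = if T.sg v = true then T.par v else win_c T v := by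
  obtain ⟨h1, h2⟩ := win_c_spec h
  unfold PTree.Arc
  by_cases hs : T.sg v = true
  · rw [if_pos hs]
    constructor
    · rintro (⟨_, h4, _⟩ | ⟨h3, h4, h5⟩)
      · exact h4.symm
      · have := (h1 y).1 ⟨h3, h4⟩
        rw [this, h2, hs] at h5
        exact absurd h5 (by simp)
    · intro hy
      exact Or.inl ⟨h.1, hy.symm, hs⟩
  · rw [if_neg hs]
    have hs' : T.sg v = false := by simpa using hs
    constructor
    · rintro (⟨_, _, h5⟩ | ⟨h3, h4, _⟩)
      · exact absurd h5 hs
      · exact (h1 y).1 ⟨h3, h4⟩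
    · intro hy
      have := (h1 y).2 hy
      refine Or.inr ⟨this.1, this.2, ?_⟩
      rw [hy, h2, hs']

theorem win_arc_out {T : PTree n} {v : Fin n} (h : WGood T v) (y : Fin n) :
    T.Arc v y ↔ y = if T.sg v = true then win_c T v else T.par v := by
  obtain ⟨h1, h2⟩ := win_c_spec h
  unfold PTree.Arc
  by_cases hs : T.sg v = true
  · rw [if_pos hs]
    constructor
    · rintro (⟨h3, h4, _⟩ | ⟨_, _, h5⟩)
      · exact (h1 y).1 ⟨h3, h4⟩
      · rw [hs] at h5
        exact absurd h5 (by simp)
    · intro hy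
      have := (h1 y).2 hy
      refine Or.inl ⟨this.1, this.2, ?_⟩
      rw [hy, h2, hs]
  · rw [if_neg hs]
    have hs' : T.sg v = false := by simpa using hs
    constructor
    · rintro (⟨h3, h4, h5⟩ | ⟨_, h4, _⟩)
      · have := (h1 y).1 ⟨h3, h4⟩
        rw [this, h2] at h5
        exact absurd h5 hs
      · exact h4.symm
    · intro hy
      exact Or.inr ⟨h.1, hy.symm, hs'⟩

/-- The position in the chain of good vertices. -/
def win_dd (T : PTree n) (v : Fin n) : ℕ :=
  if h : WGood T v then win_dd T (T.par v) + 1 else 0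
termination_by (v : ℕ)
decreasing_by exact T.lt v h.1

theorem win_dd_good {T : PTree n} {v : Fin n} (h : WGood T v) :
    win_dd T v = win_dd T (T.par v) + 1 := by
  rw [win_dd, dif_pos h]

theorem win_dd_bad {T : PTree n} {v : Fin n} (h : ¬ WGood T v) : win_dd T v = 0 := by
  rw [win_dd, dif_neg h]

theorem win_iter {T : PTree n} {v : Fin n} (i : ℕ) (h : i ≤ win_dd T v) :
    win_dd T (T.par^[i] v) + i = win_dd T v ∧
      (i < win_dd T v → WGood T (T.par^[i] v) ∧ T.sg (T.par^[i] v) = T.sg v) := by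
  induction i with
  | zero =>
    refine ⟨rfl, fun h0 => ⟨?_, rfl⟩⟩
    by_contra hb
    have hb' : ¬ WGood T v := hb
    rw [win_dd_bad hb'] at h0
    exact lt_irrefl _ h0
  | succ i ih =>
    obtain ⟨h1, h2⟩ := ih (by omega)
    obtain ⟨hg, hs⟩ := h2 (by omega)
    rw [Function.iterate_succ_apply']
    have h3 := win_dd_good hg
    refine ⟨by omega, fun h4 => ?_⟩
    have hg' : WGood T (T.par (T.par^[i] v)) := by
      by_contra hb
      have := win_dd_bad hb
      omega
    refine ⟨hg', ?_⟩
    have h5 := (win_c_spec hg').1 (T.par^[i] v)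
    have h6 := h5.1 ⟨hg.1, rfl⟩
    have h7 := (win_c_spec hg').2
    rw [← h6, hs] at h7
    exact h7.symm

/-- The path of a window with bottom `v`. -/
def win_x (T : PTree n) (ℓ : ℕ) (v : Fin n) (i : ℕ) : Fin n :=
  if T.sg v = true then (if i ≤ ℓ then T.par^[ℓ - i] v else win_c T v)
  else (if i = 0 then win_c T v else T.par^[i - 1] v)

theorem win_child {T : PTree n} {v : Fin n} (i : ℕ) (h : i + 1 < win_dd T v) :
    win_c T (T.par^[i + 1] v) = T.par^[i] v := by
  have hg := (win_iter (i + 1) h.le).2 h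
  have hg0 := (win_iter i (by omega)).2 (by omega : i < win_dd T v)
  have h5 := (win_c_spec hg.1).1 (T.par^[i] v)
  rw [Function.iterate_succ_apply'] at h5 ⊢
  exact (h5.1 ⟨hg0.1.1, rfl⟩).symm

theorem win_win {T : PTree n} {ℓ : ℕ} (hℓ : 1 ≤ ℓ) {v : Fin n} (hv : ℓ ≤ win_dd T v) :
    Win T ℓ (win_x T ℓ v) := by
  have hpos : ∀ i, i < ℓ → WGood T (T.par^[i] v) ∧ T.sg (T.par^[i] v) = T.sg v := fun i hi =>
    (win_iter i (by omega)).2 (by omega)
  have hchild : ∀ i, i + 1 < ℓ → win_c T (T.par^[i + 1] v) = T.par^[i] v := fun i hi =>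
    win_child i (by omega)
  by_cases hs : T.sg v = true
  · refine ⟨fun i h1 h2 y => ?_, fun i h1 h2 y => ?_⟩
    · obtain ⟨hg, hsg⟩ := hpos (ℓ - i) (by omega)
      have e1 : win_x T ℓ v i = T.par^[ℓ - i] v := by
        unfold win_x; rw [if_pos hs, if_pos h2]
      have e2 : win_x T ℓ v (i - 1) = T.par^[ℓ - i + 1] v := by
        unfold win_x; rw [if_pos hs, if_pos (by omega)]; congr 1; omega
      rw [e1, e2, win_arc_in hg, hsg, if_pos hs, Function.iterate_succ_apply']
    · obtain ⟨hg, hsg⟩ := hpos (ℓ - i) (by omega)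
      have e1 : win_x T ℓ v i = T.par^[ℓ - i] v := by
        unfold win_x; rw [if_pos hs, if_pos h2]
      rw [e1, win_arc_out hg, hsg, if_pos hs]
      rcases Nat.lt_or_ge i ℓ with h3 | h3
      · have e2 : win_x T ℓ v (i + 1) = T.par^[ℓ - i - 1] v := by
          unfold win_x; rw [if_pos hs, if_pos (by omega)]; congr 1
        have e3 : ℓ - i = (ℓ - i - 1) + 1 := by omega
        rw [e2, e3, hchild (ℓ - i - 1) (by omega)]
        rfl
      · have e4 : i = ℓ := by omega
        subst e4
        have e2 : win_x T i v (i + 1) = win_c T v := by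
          unfold win_x; rw [if_pos hs, if_neg (by omega)]
        rw [e2, Nat.sub_self]
        rfl
  · refine ⟨fun i h1 h2 y => ?_, fun i h1 h2 y => ?_⟩
    · obtain ⟨hg, hsg⟩ := hpos (i - 1) (by omega)
      have e1 : win_x T ℓ v i = T.par^[i - 1] v := by
        unfold win_x; rw [if_neg hs, if_neg (by omega)]
      rw [e1, win_arc_in hg, hsg, if_neg hs]
      rcases Nat.eq_or_lt_of_le h1 with h3 | h3
      · subst h3
        have e2 : win_x T ℓ v (1 - 1) = win_c T v := by
          unfold win_x; rw [if_neg hs, if_pos rfl]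
        rw [e2]
        rfl
      · have e2 : win_x T ℓ v (i - 1) = T.par^[i - 1 - 1] v := by
          unfold win_x; rw [if_neg hs, if_neg (by omega)]
        have e3 : i - 1 = (i - 1 - 1) + 1 := by omega
        rw [e2]
        conv_lhs => rw [e3]
        rw [hchild (i - 1 - 1) (by omega)]
    · obtain ⟨hg, hsg⟩ := hpos (i - 1) (by omega)
      have e1 : win_x T ℓ v i = T.par^[i - 1] v := by
        unfold win_x; rw [if_neg hs, if_neg (by omega)]
      have e2 : win_x T ℓ v (i + 1) = T.par^[i - 1 + 1] v := by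
        unfold win_x; rw [if_neg hs, if_neg (by omega)]; congr 1; omega
      rw [e1, e2, win_arc_out hg, hsg, if_neg hs, Function.iterate_succ_apply']

/-- Each interior vertex of a window is an iterated parent of the bottom. -/
theorem win_x_iter {T : PTree n} {ℓ : ℕ} {v : Fin n} {i : ℕ} (h1 : 1 ≤ i) (h2 : i ≤ ℓ) :
    ∃ k, k < ℓ ∧ win_x T ℓ v i = T.par^[k] v ∧ i = if T.sg v = true then ℓ - k else k + 1 := by
  by_cases hs : T.sg v = true
  · refine ⟨ℓ - i, by omega, ?_, ?_⟩
    · unfold win_x; rw [if_pos hs, if_pos h2]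
    · rw [if_pos hs]; omega
  · refine ⟨i - 1, by omega, ?_, ?_⟩
    · unfold win_x; rw [if_neg hs, if_neg (by omega)]
    · rw [if_neg hs]; omega

theorem win_inj_aux {T : PTree n} {v v' : Fin n} : ∀ k : ℕ, k < win_dd T v → k < win_dd T v' →
    T.par^[k] v = T.par^[k] v' → v = v' := by
  intro k
  induction k with
  | zero => intro _ _ h; exact h
  | succ k ih =>
    intro h1 h2 h
    apply ih (by omega) (by omega)
    rw [← win_child k h1, ← win_child k h2, h]

theorem win_inj {T : PTree n} {ℓ : ℕ} (hℓ : 1 ≤ ℓ) {v v' : Fin n} (hv : WGood T v)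
    (hv' : WGood T v') (hd : ℓ ∣ win_dd T v) (hd' : ℓ ∣ win_dd T v') {i i' : ℕ} (h1 : 1 ≤ i)
    (h2 : i ≤ ℓ) (h1' : 1 ≤ i') (h2' : i' ≤ ℓ) (h : win_x T ℓ v i = win_x T ℓ v' i') :
    v = v' ∧ i = i' := by
  obtain ⟨k, hk, e1, e2⟩ := win_x_iter (T := T) (v := v) h1 h2
  obtain ⟨k', hk', e1', e2'⟩ := win_x_iter (T := T) (v := v') h1' h2'
  have hp : 0 < win_dd T v := by rw [win_dd_good hv]; omega
  have hp' : 0 < win_dd T v' := by rw [win_dd_good hv']; omega
  have hle := Nat.le_of_dvd hp hd
  have hle' := Nat.le_of_dvd hp' hd'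
  have h3 := (win_iter k (by omega : k ≤ win_dd T v)).1
  have h4 := (win_iter k' (by omega : k' ≤ win_dd T v')).1
  rw [e1, e1'] at h
  rw [h] at h3
  have hkk : k = k' := by
    obtain ⟨a, ha⟩ := hd
    obtain ⟨b, hb⟩ := hd'
    have h5 : ℓ * a + k' = ℓ * b + k := by omega
    have h6 : (ℓ * a + k') % ℓ = (ℓ * b + k) % ℓ := by rw [h5]
    rw [Nat.mul_add_mod, Nat.mul_add_mod, Nat.mod_eq_of_lt hk, Nat.mod_eq_of_lt hk'] at h6
    exact h6.symm
  subst hkk
  have hvv : v = v' := win_inj_aux k (by omega) (by omega) h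
  subst hvv
  exact ⟨rfl, by rw [e2, e2']⟩

theorem win_cover {T : PTree n} {ℓ : ℕ} (hℓ : 1 ≤ ℓ) {u : Fin n} (hu : WGood T u) :
    (∃ v, WGood T v ∧ ℓ ∣ win_dd T v ∧ ∃ k, k < ℓ ∧ u = T.par^[k] v) ∨
      ∃ w, ¬ WGood T w ∧ ∃ k, k < ℓ - 1 ∧ u = T.par^[k + 1] w := by
  -- descend r steps
  have key : ∀ r : ℕ, (∃ v, WGood T v ∧ win_dd T v = win_dd T u + r ∧ u = T.par^[r] v) ∨
      ∃ w, ¬ WGood T w ∧ ∃ k, k < r ∧ u = T.par^[k + 1] w := by
    intro r
    induction r with
    | zero => exact Or.inl ⟨u, hu, rfl, rfl⟩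
    | succ r ih =>
      rcases ih with ⟨v, hv, hd, he⟩ | ⟨w, hw, k, hk, he⟩
      · have hc := (win_c_spec hv).1 (win_c T v)
        have hc' := hc.2 rfl
        by_cases hg : WGood T (win_c T v)
        · left
          refine ⟨win_c T v, hg, ?_, ?_⟩
          · rw [win_dd_good hg, hc'.2, hd]; ring
          · rw [Function.iterate_succ_apply, hc'.2]; exact he
        · right
          refine ⟨win_c T v, hg, r, by omega, ?_⟩
          rw [Function.iterate_succ_apply, hc'.2]; exact he
      · exact Or.inr ⟨w, hw, k, by omega, he⟩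
  rcases key ((ℓ - win_dd T u % ℓ) % ℓ) with ⟨v, hv, hd, he⟩ | ⟨w, hw, k, hk, he⟩
  · left
    refine ⟨v, hv, ?_, _, Nat.mod_lt _ (by omega), he⟩
    rw [hd]
    rw [Nat.dvd_iff_mod_eq_zero]
    have h1 : win_dd T u % ℓ < ℓ := Nat.mod_lt _ (by omega)
    rcases Nat.eq_zero_or_pos (win_dd T u % ℓ) with h0 | h0
    · rw [h0, Nat.sub_zero, Nat.mod_self, add_zero]; exact h0
    · rw [Nat.mod_eq_of_lt (by omega : ℓ - win_dd T u % ℓ < ℓ), Nat.add_mod,
        Nat.mod_eq_of_lt (by omega : ℓ - win_dd T u % ℓ < ℓ)]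
      have h2 : win_dd T u % ℓ + (ℓ - win_dd T u % ℓ) = ℓ := by omega
      rw [h2, Nat.mod_self]
  · right
    refine ⟨w, hw, k, ?_, he⟩
    have h1 : (ℓ - win_dd T u % ℓ) % ℓ < ℓ := Nat.mod_lt _ (by omega)
    omega

/-! ### counting -/

theorem win_sum_ch (T : PTree n) (P : Fin n → Prop) [DecidablePred P] :
    ∑ v, ((T.ch v).filter P).card = (univ.filter fun c : Fin n => (c : ℕ) ≠ 0 ∧ P c).card := by
  rw [Finset.card_eq_sum_card_fiberwise (f := T.par) (t := univ) (fun _ _ => mem_univ _)]
  refine sum_congr rfl fun v _ => ?_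
  congr 1
  ext c
  simp only [mem_filter, tb_mem_ch, mem_univ, true_and]
  tauto

theorem win_card_ne_zero (hn : 1 ≤ n) : (univ.filter fun c : Fin n => (c : ℕ) ≠ 0).card + 1 = n := by
  have h1 := Finset.card_filter_add_card_filter_not (s := (univ : Finset (Fin n)))
    (fun c : Fin n => (c : ℕ) = 0)
  have h2 : (univ.filter fun c : Fin n => (c : ℕ) = 0) = {⟨0, by omega⟩} := by
    ext c
    simp only [mem_filter, mem_univ, true_and, mem_singleton, Fin.ext_iff]
  rw [h2, card_singleton, card_univ, Fintype.card_fin] at h1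
  have h3 : (univ.filter fun c : Fin n => (c : ℕ) ≠ 0).card =
      (univ.filter fun c : Fin n => ¬ (c : ℕ) = 0).card := rfl
  omega

theorem win_sum_in (T : PTree n) (hn : 1 ≤ n) : ∑ v, win_in T v + 1 = n := by
  have e : ∑ v, win_in T v = (univ.filter fun c : Fin n => (c : ℕ) ≠ 0).card := by
    unfold win_in
    rw [sum_add_distrib, win_sum_ch T (fun c => T.sg c = false), ← card_filter]
    rw [← Finset.card_filter_add_card_filter_not (s := univ.filter fun c : Fin n => (c : ℕ) ≠ 0)
      (fun c : Fin n => T.sg c = false), filter_filter, filter_filter]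
    congr 2
    ext c
    simp
  rw [e]
  exact win_card_ne_zero hn

theorem win_sum_out (T : PTree n) (hn : 1 ≤ n) : ∑ v, win_out T v + 1 = n := by
  have e : ∑ v, win_out T v = (univ.filter fun c : Fin n => (c : ℕ) ≠ 0).card := by
    unfold win_out
    rw [sum_add_distrib, win_sum_ch T (fun c => T.sg c = true), ← card_filter]
    rw [← Finset.card_filter_add_card_filter_not (s := univ.filter fun c : Fin n => (c : ℕ) ≠ 0)
      (fun c : Fin n => T.sg c = true), filter_filter, filter_filter]
    congr 2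
    ext c
    simp
  rw [e]
  exact win_card_ne_zero hn

theorem win_count (f : Fin n → ℕ) (hf : ∑ v, f v + 1 = n) :
    (univ.filter fun v => f v ≠ 1).card + 1 ≤ 2 * (univ.filter fun v => f v = 0).card := by
  have h1 : ∀ v, 1 + (if f v ≠ 1 then 1 else 0) ≤ f v + 2 * (if f v = 0 then 1 else 0) := by
    intro v
    rcases Nat.lt_trichotomy (f v) 1 with h | h | h
    · have : f v = 0 := by omega
      simp [this]
    · simp [h]
    · have h2 : f v ≠ 1 := by omega
      have h3 : f v ≠ 0 := by omega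
      simp only [h2, h3, ne_eq, not_false_eq_true, if_true, if_false]
      omega
  have h2 := Finset.sum_le_sum fun v (_ : v ∈ (univ : Finset (Fin n))) => h1 v
  rw [sum_add_distrib, sum_add_distrib, ← mul_sum, ← card_filter, ← card_filter] at h2
  simp only [sum_const, card_univ, Fintype.card_fin, smul_eq_mul, mul_one] at h2
  omega

theorem win_snk (T : PTree n) (v : Fin n) : T.Snk v ↔ win_out T v = 0 := by
  unfold PTree.Snk PTree.Arc win_out
  constructor
  · intro h
    have h1 : ((T.ch v).filter fun c => T.sg c = true) = ∅ := by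
      rw [filter_eq_empty_iff]
      intro c hc hs
      rw [tb_mem_ch] at hc
      exact h c (Or.inl ⟨hc.1, hc.2, hs⟩)
    rw [h1, card_empty, zero_add, if_neg]
    rintro ⟨h2, h3⟩
    exact h (T.par v) (Or.inr ⟨h2, rfl, h3⟩)
  · intro h u hu
    have h1 : ((T.ch v).filter fun c => T.sg c = true).card = 0 := by omega
    have h2 : ¬ ((v : ℕ) ≠ 0 ∧ T.sg v = false) := by
      intro h3
      rw [if_pos h3] at h
      omega
    rw [card_eq_zero, filter_eq_empty_iff] at h1
    rcases hu with ⟨h3, h4, h5⟩ | ⟨h3, _, h5⟩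
    · exact h1 (tb_mem_ch.2 ⟨h3, h4⟩) h5
    · exact h2 ⟨h3, h5⟩

theorem win_src (T : PTree n) (v : Fin n) : T.Src v ↔ win_in T v = 0 := by
  unfold PTree.Src PTree.Arc win_in
  constructor
  · intro h
    have h1 : ((T.ch v).filter fun c => T.sg c = false) = ∅ := by
      rw [filter_eq_empty_iff]
      intro c hc hs
      rw [tb_mem_ch] at hc
      exact h c (Or.inr ⟨hc.1, hc.2, hs⟩)
    rw [h1, card_empty, zero_add, if_neg]
    rintro ⟨h2, h3⟩
    exact h (T.par v) (Or.inl ⟨h2, rfl, h3⟩)
  · intro h u hu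
    have h1 : ((T.ch v).filter fun c => T.sg c = false).card = 0 := by omega
    have h2 : ¬ ((v : ℕ) ≠ 0 ∧ T.sg v = true) := by
      intro h3
      rw [if_pos h3] at h
      omega
    rw [card_eq_zero, filter_eq_empty_iff] at h1
    rcases hu with ⟨h3, _, h5⟩ | ⟨h3, h4, h5⟩
    · exact h2 ⟨h3, h5⟩
    · exact h1 (tb_mem_ch.2 ⟨h3, h4⟩) h5

theorem win_bad (T : PTree n) (hn : 1 ≤ n) : (univ.filter fun v => ¬ WGood T v).card ≤
    2 * ((univ.filter fun v => T.Snk v).card + (univ.filter fun v => T.Src v).card) := by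
  have h1 := win_count (win_in T) (win_sum_in T hn)
  have h2 := win_count (win_out T) (win_sum_out T hn)
  have e1 : (univ.filter fun v => T.Snk v) = univ.filter fun v => win_out T v = 0 := by
    ext v; simp only [mem_filter, mem_univ, true_and]; exact win_snk T v
  have e2 : (univ.filter fun v => T.Src v) = univ.filter fun v => win_in T v = 0 := by
    ext v; simp only [mem_filter, mem_univ, true_and]; exact win_src T v
  have h3 : (univ.filter fun v => ¬ WGood T v) ⊆ ({⟨0, by omega⟩} ∪
      univ.filter fun v => win_in T v ≠ 1) ∪ univ.filter fun v => win_out T v ≠ 1 := by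
    intro v hv
    simp only [mem_filter, mem_univ, true_and, mem_union, mem_singleton, Fin.ext_iff] at hv ⊢
    unfold WGood at hv
    tauto
  have h4 := card_le_card h3
  have h5 := card_union_le ({⟨0, by omega⟩} ∪ univ.filter fun v => win_in T v ≠ 1)
    (univ.filter fun v => win_out T v ≠ 1)
  have h6 := card_union_le ({⟨0, by omega⟩} : Finset (Fin n))
    (univ.filter fun v => win_in T v ≠ 1)
  rw [card_singleton] at h6
  rw [e1, e2]
  omega

theorem x3_win : StWin := by
  intro ℓ n T hℓ
  rcases Nat.eq_zero_or_pos n with hn | hn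
  · subst hn
    exact ⟨0, fun j => j.elim0, fun j => j.elim0, fun j => j.elim0, by omega⟩
  set B := univ.filter fun v => WGood T v ∧ ℓ ∣ win_dd T v with hB
  set e := B.equivFin.symm with he
  have hBm : ∀ j : Fin B.card, WGood T (e j) ∧ ℓ ∣ win_dd T (e j) := by
    intro j
    exact (mem_filter.1 (e j).2).2
  refine ⟨B.card, fun j => win_x T ℓ (e j), fun j => ?_, ?_, ?_⟩
  · apply win_win hℓ
    have hp : 0 < win_dd T (e j) := by rw [win_dd_good (hBm j).1]; omega
    exact Nat.le_of_dvd hp (hBm j).2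
  · intro j j' i i' h1 h2 h3 h4 h
    obtain ⟨h5, h6⟩ := win_inj hℓ (hBm j).1 (hBm j').1 (hBm j).2 (hBm j').2 h1 h2 h3 h4 h
    exact ⟨e.injective (Subtype.ext h5), h6⟩
  · -- covering
    set Bad := univ.filter fun v => ¬ WGood T v with hBad
    have hcov : (univ : Finset (Fin n)) ⊆
        (((B ×ˢ range ℓ).image fun q => T.par^[q.2] q.1) ∪
          ((Bad ×ˢ range (ℓ - 1)).image fun q => T.par^[q.2 + 1] q.1)) ∪ Bad := by
      intro u _
      by_cases hu : WGood T u
      · rw [mem_union]
        left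
        rw [mem_union, mem_image, mem_image]
        rcases win_cover hℓ hu with ⟨v, hv, hd, k, hk, hku⟩ | ⟨w, hw, k, hk, hku⟩
        · left
          refine ⟨(v, k), mem_product.2 ⟨?_, mem_range.2 hk⟩, hku.symm⟩
          rw [hB, mem_filter]
          exact ⟨mem_univ _, hv, hd⟩
        · right
          refine ⟨(w, k), mem_product.2 ⟨?_, mem_range.2 hk⟩, hku.symm⟩
          rw [hBad, mem_filter]
          exact ⟨mem_univ _, hw⟩
      · rw [mem_union]
        right
        rw [hBad, mem_filter]
        exact ⟨mem_univ _, hu⟩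
    have h1 := card_le_card hcov
    rw [card_univ, Fintype.card_fin] at h1
    have h2 := card_union_le (((B ×ˢ range ℓ).image fun q => T.par^[q.2] q.1) ∪
          ((Bad ×ˢ range (ℓ - 1)).image fun q => T.par^[q.2 + 1] q.1)) Bad
    have h3 := card_union_le ((B ×ˢ range ℓ).image fun q => T.par^[q.2] q.1)
          ((Bad ×ˢ range (ℓ - 1)).image fun q => T.par^[q.2 + 1] q.1)
    have h4 : ((B ×ˢ range ℓ).image fun q => T.par^[q.2] q.1).card ≤ B.card * ℓ := by
      refine card_image_le.trans ?_
      rw [card_product, card_range]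
    have h5 : ((Bad ×ˢ range (ℓ - 1)).image fun q => T.par^[q.2 + 1] q.1).card ≤
        Bad.card * (ℓ - 1) := by
      refine card_image_le.trans ?_
      rw [card_product, card_range]
    have h6 := win_bad T hn
    rw [← hBad] at h6
    have h7 : Bad.card * (ℓ - 1) + Bad.card = Bad.card * ℓ := by
      obtain ⟨t, rfl⟩ : ∃ t, ℓ = t + 1 := ⟨ℓ - 1, by omega⟩
      rw [Nat.add_sub_cancel]; ring
    have h8 : Bad.card * ℓ ≤ 2 * ℓ * ((univ.filter fun v => T.Snk v).card +
        (univ.filter fun v => T.Src v).card) := by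
      calc Bad.card * ℓ ≤ (2 * ((univ.filter fun v => T.Snk v).card +
            (univ.filter fun v => T.Src v).card)) * ℓ := Nat.mul_le_mul_right _ h6
        _ = _ := by ring
    omega

end

end OT
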